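import Mathlib
import Pool.Agent.Helper73.TH.Defs
import Pool.Agent.Helper73.TH.UDefs

set_option autoImplicit false

/-!
Project TH (MP_594f4b_nt, Q2): pieces TH-10 and TH-11, real estimates.
-/

namespace Pool.Agent.Helper73.TH

namespace P10

/-- basic estimate: `X ≥ exp u`, `|L| ≥ exp v` -/
theorem basic {X L u v w s : ℝ} (hs : 0 ≤ s) (hX : Real.exp u ≤ X) (hL : Real.exp v ≤ |L|)
    (hw : w ≤ s * u + v) : Real.exp w ≤ X ^ s * |L| := by
  have h1 : Real.exp (s * u) ≤ X ^ s := by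
    calc Real.exp (s * u) = (Real.exp u) ^ s := by rw [← Real.exp_mul, mul_comm]
      _ ≤ X ^ s := Real.rpow_le_rpow (Real.exp_pos _).le hX hs
  calc Real.exp w ≤ Real.exp (s * u + v) := Real.exp_le_exp.mpr hw
    _ = Real.exp (s * u) * Real.exp v := Real.exp_add _ _
    _ ≤ X ^ s * |L| := by
        apply mul_le_mul h1 hL (Real.exp_pos _).le
        exact le_trans (Real.exp_pos _).le h1

end P10

/-! ### TH-10: real estimates, case 1 -/

theorem case1 (P : Par) (ρ s : ℝ) (h : Ineq P ρ s) :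
    ∃ δ : ℝ, 0 < δ ∧ ∃ t0 : ℝ, ∀ t : ℝ, t0 ≤ t → ∀ (D0 D1 n X L : ℝ) (j j' : ℤ),
      0 < D0 → D0 ≤ 16 * Real.exp ((1 + P.α / P.γ) * t) →
      0 < D1 → D1 ≤ 16 * Real.exp ((P.γ + P.α) * t) →
      Real.exp ((P.γ + P.α - P.κ) * t) ≤ n →
      Real.exp ((P.κ - 1) * t) ≤ 640 * X →
      |(j : ℝ) - D0 * L| ≤ 320 * X * Real.exp (-((P.κ - 1) * t)) →
      |(j' : ℝ) - D1 * L| ≤ 1 / 2 → j' ≠ 0 →
      (n ≤ |(j' : ℝ)| ∨ n ≤ 6 * (|(j' : ℝ)| * |(j : ℝ)|)) →
      Real.exp (δ * t) ≤ X ^ s * |L| := by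
  set α := P.α with hα
  set γ := P.γ with hγ
  set κ := P.κ with hκ
  have hs : 1 < s := h.hs
  have U1 : s < κ * (s - 1) := h.U1
  have U7 : 1 + α / γ < s * (κ - 1) := h.U7
  set E1 : ℝ := s * (κ - 1) - κ with hE1
  set E2 : ℝ := s * (κ - 1) - (1 + α / γ) with hE2
  have hE1p : 0 < E1 := by rw [hE1]; nlinarith
  have hE2p : 0 < E2 := by rw [hE2]; linarith
  set δ : ℝ := min E1 E2 / 2 with hδ
  have hδp : 0 < δ := by rw [hδ]; have := lt_min hE1p hE2p; linarith
  have hδ1 : 2 * δ ≤ E1 := by rw [hδ]; have := min_le_left E1 E2; linarith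
  have hδ2 : 2 * δ ≤ E2 := by rw [hδ]; have := min_le_right E1 E2; linarith
  have l640 : 0 < Real.log 640 := Real.log_pos (by norm_num)
  have l122880 : 0 < Real.log 122880 := Real.log_pos (by norm_num)
  have l32 : Real.log 32 ≤ Real.log 122880 := Real.log_le_log (by norm_num) (by norm_num)
  set C : ℝ := s * Real.log 640 + Real.log 122880 with hC
  have hCp : 0 < C := by rw [hC]; positivity
  refine ⟨δ, hδp, C / δ, ?_⟩
  intro t ht D0 D1 n X L j j' hD0 hD0' hD1 hD1' hn hX hj hj' hj'0 hor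
  have hδt : C ≤ δ * t := by
    have := (div_le_iff₀ hδp).mp ht
    linarith
  have ht0 : 0 < t := by
    by_contra hcon
    push Not at hcon
    nlinarith
  -- X is large
  have hXe : Real.exp ((κ - 1) * t - Real.log 640) ≤ X := by
    rw [Real.exp_sub, Real.exp_log (by norm_num : (0:ℝ) < 640)]
    rw [div_le_iff₀ (by norm_num)]
    linarith
  have hXpos : 0 < X := lt_of_lt_of_le (Real.exp_pos _) hXe
  -- |L| ≥ |j'| / (2 D1)
  have hj'1 : (1 : ℝ) ≤ |(j' : ℝ)| := by
    have : (1 : ℤ) ≤ |j'| := Int.one_le_abs hj'0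
    exact_mod_cast this
  have hL1 : |(j' : ℝ)| ≤ 2 * (D1 * |L|) := by
    have h1 : |(j' : ℝ)| ≤ |(j' : ℝ) - D1 * L| + |D1 * L| := by
      calc |(j' : ℝ)| = |((j' : ℝ) - D1 * L) + D1 * L| := by ring_nf
        _ ≤ _ := abs_add_le _ _
    rw [abs_mul, abs_of_pos hD1] at h1
    linarith
  have hL2 : |(j' : ℝ)| ≤ 32 * Real.exp ((γ + α) * t) * |L| := by
    have : D1 * |L| ≤ 16 * Real.exp ((γ + α) * t) * |L| :=
      mul_le_mul_of_nonneg_right hD1' (abs_nonneg _)
    linarith
  have hLnn := abs_nonneg L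
  rcases hor with hor | hor
  · -- case (a)
    apply P10.basic (by linarith) hXe (v := -(κ * t) - Real.log 32)
    · -- |L| ≥ exp(-κ t)/32
      have h1 : Real.exp ((γ + α - κ) * t) ≤ 32 * Real.exp ((γ + α) * t) * |L| := by linarith
      have h2 : Real.exp ((γ + α - κ) * t) = Real.exp ((γ + α) * t) * Real.exp (-(κ * t)) := by
        rw [← Real.exp_add]; ring_nf
      rw [h2] at h1
      have h3 : Real.exp (-(κ * t)) ≤ 32 * |L| := by
        have hp := Real.exp_pos ((γ + α) * t)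
        have : Real.exp ((γ + α) * t) * Real.exp (-(κ * t)) ≤
            Real.exp ((γ + α) * t) * (32 * |L|) := by linarith
        exact le_of_mul_le_mul_left this hp
      rw [Real.exp_sub, Real.exp_log (by norm_num : (0:ℝ) < 32), div_le_iff₀ (by norm_num)]
      linarith
    · have : 2 * (δ * t) ≤ E1 * t := by nlinarith
      rw [hE1] at this
      nlinarith
  · by_cases hjX : |(j : ℝ)| ≤ 640 * X * Real.exp (-((κ - 1) * t))
    · -- case (b1)
      have hLX : Real.exp (-t - Real.log 122880) ≤ |X * L| := by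
        rw [abs_mul, abs_of_pos hXpos]
        rw [Real.exp_sub, Real.exp_log (by norm_num : (0:ℝ) < 122880), div_le_iff₀ (by norm_num)]
        have h1 : |(j' : ℝ)| * |(j : ℝ)| ≤
            (32 * Real.exp ((γ + α) * t) * |L|) * (640 * X * Real.exp (-((κ - 1) * t))) :=
          mul_le_mul hL2 hjX (abs_nonneg _) (by positivity)
        have h2 : Real.exp ((γ + α - κ) * t) = Real.exp ((γ + α) * t) *
            Real.exp (-((κ - 1) * t)) * Real.exp (-t) := by
          rw [← Real.exp_add, ← Real.exp_add]; ring_nf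
        have h3 : Real.exp ((γ + α) * t) * Real.exp (-((κ - 1) * t)) * Real.exp (-t) ≤
            Real.exp ((γ + α) * t) * Real.exp (-((κ - 1) * t)) * (X * |L| * 122880) := by
          rw [← h2]
          calc Real.exp ((γ + α - κ) * t) ≤ n := hn
            _ ≤ 6 * (|(j' : ℝ)| * |(j : ℝ)|) := hor
            _ ≤ 6 * ((32 * Real.exp ((γ + α) * t) * |L|) *
                (640 * X * Real.exp (-((κ - 1) * t)))) := by linarith
            _ = _ := by ring
        exact le_of_mul_le_mul_left h3 (by positivity)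
      have hrw : X ^ s * |L| = X ^ (s - 1) * |X * L| := by
        rw [abs_mul, abs_of_pos hXpos, ← mul_assoc]
        congr 1
        rw [Real.rpow_sub_one hXpos.ne', div_mul_cancel₀ _ hXpos.ne']
      rw [hrw]
      apply P10.basic (by linarith) hXe hLX
      have : 2 * (δ * t) ≤ E1 * t := by nlinarith
      rw [hE1] at this
      nlinarith
    · -- case (b2)
      push Not at hjX
      have hXe0 : 0 < X * Real.exp (-((κ - 1) * t)) := by positivity
      have hj0 : j ≠ 0 := by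
        rintro rfl
        simp only [Int.cast_zero, abs_zero] at hjX
        nlinarith
      have hj1 : (1 : ℝ) ≤ |(j : ℝ)| := by
        have : (1 : ℤ) ≤ |j| := Int.one_le_abs hj0
        exact_mod_cast this
      have h1 : |(j : ℝ)| ≤ |(j : ℝ) - D0 * L| + |D0 * L| := by
        calc |(j : ℝ)| = |((j : ℝ) - D0 * L) + D0 * L| := by ring_nf
          _ ≤ _ := abs_add_le _ _
      rw [abs_mul, abs_of_pos hD0] at h1
      have h2 : 1 ≤ 2 * (D0 * |L|) := by nlinarith
      have h3 : D0 * |L| ≤ 16 * Real.exp ((1 + α / γ) * t) * |L| :=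
        mul_le_mul_of_nonneg_right hD0' (abs_nonneg _)
      apply P10.basic (by linarith) hXe (v := -((1 + α / γ) * t) - Real.log 32)
      · rw [Real.exp_sub, Real.exp_log (by norm_num : (0:ℝ) < 32), div_le_iff₀ (by norm_num),
          Real.exp_neg]
        have hp := Real.exp_pos ((1 + α / γ) * t)
        rw [inv_le_iff_one_le_mul₀ hp]
        linarith
      · have : 2 * (δ * t) ≤ E2 * t := by nlinarith
        rw [hE2] at this
        nlinarith

/-! ### TH-11: real estimates, multiples of one vector -/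

theorem case2b (P : Par) (ρ s : ℝ) (h : Ineq P ρ s) :
    ∃ δ : ℝ, 0 < δ ∧ ∃ t0 : ℝ, ∀ t : ℝ, t0 ≤ t → ∀ (a : ℤ) (w1 w2 L X : ℝ), a ≠ 0 →
      Real.exp (P.α * t) ≤ w1 → w1 ≤ 2 * Real.exp (P.α * t) → Real.exp t ≤ 2 * w2 →
      |(a : ℝ)| ≤ 32 * Real.exp (P.κ * (P.γ * t)) * |L| →
      |(a : ℝ) * w2| ≤ X → Dom ρ (a * w1) (a * w2) →
      Real.exp (δ * t) ≤ X ^ s * |L| := by
  have hα0 : 0 < P.α := P.hα0
  set α := P.α with hα
  set γ := P.γ with hγ
  set κ := P.κ with hκ
  have hs : 1 < s := h.hs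
  have hρ : 1 < ρ := h.hρ
  have U3 : (ρ - 1) * (γ * κ - s) < (1 + s) * (1 - ρ * α) := h.U3
  -- E * (ρ - 1) 
  set E : ℝ := (1 + s) * (1 - ρ * α) - (ρ - 1) * (γ * κ - s) with hE
  have hEp : 0 < E := by rw [hE]; linarith
  have hρ1 : 0 < ρ - 1 := by linarith
  set δ : ℝ := E / (2 * (ρ - 1)) with hδ
  have hδp : 0 < δ := by rw [hδ]; positivity
  have hδE : 2 * ((ρ - 1) * δ) = E := by
    rw [hδ]; field_simp
  have l4 : 0 < Real.log 4 := Real.log_pos (by norm_num)
  have l2 : 0 < Real.log 2 := Real.log_pos (by norm_num)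
  have l32 : 0 < Real.log 32 := Real.log_pos (by norm_num)
  set C : ℝ := (1 + s) * (ρ * Real.log 4) + (ρ - 1) * (s * Real.log 2 + Real.log 32) with hC
  have hCp : 0 < C := by rw [hC]; positivity
  refine ⟨δ, hδp, C / ((ρ - 1) * δ), ?_⟩
  intro t ht a w1 w2 L X ha hw1 hw1' hw2 haL haX hdom
  have hδt : C ≤ (ρ - 1) * δ * t := by
    have := (div_le_iff₀ (by positivity)).mp ht
    linarith
  have ht0 : 0 < t := by
    by_contra hcon
    push Not at hcon
    have : (ρ - 1) * δ * t ≤ 0 := mul_nonpos_of_nonneg_of_nonpos (by positivity) hcon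
    linarith
  have ha1 : (1 : ℝ) ≤ |(a : ℝ)| := by
    have : (1 : ℤ) ≤ |a| := Int.one_le_abs ha
    exact_mod_cast this
  have hapos : 0 < |(a : ℝ)| := by linarith
  have hw1pos : 0 < w1 := lt_of_lt_of_le (Real.exp_pos _) hw1
  have hw2pos : 0 < w2 := by
    have := Real.exp_pos t
    linarith
  have hw1one : 1 ≤ w1 := by
    refine le_trans ?_ hw1
    exact Real.one_le_exp (by positivity)
  set A : ℝ := Real.log |(a : ℝ)| with hA
  have hAe : Real.exp A = |(a : ℝ)| := Real.exp_log hapos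
  rcases hdom with hdom | hdom
  · rw [abs_mul, abs_mul, abs_of_pos hw1pos, abs_of_pos hw2pos] at hdom
    have h1 : Real.exp (A + t) ≤ (Real.exp (Real.log 4 + A + α * t)) ^ ρ := by
      rw [Real.exp_add, hAe]
      calc |(a : ℝ)| * Real.exp t ≤ |(a : ℝ)| * (2 * w2) :=
            mul_le_mul_of_nonneg_left hw2 hapos.le
        _ = 2 * (|(a : ℝ)| * w2) := by ring
        _ ≤ (2 * (|(a : ℝ)| * w1)) ^ ρ := hdom
        _ ≤ _ := by
            apply Real.rpow_le_rpow (by positivity) _ (by linarith)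
            rw [Real.exp_add, Real.exp_add, hAe, Real.exp_log (by norm_num : (0:ℝ) < 4)]
            nlinarith
    rw [← Real.exp_mul, Real.exp_le_exp] at h1
    -- X and L
    rw [abs_mul, abs_of_pos hw2pos] at haX
    have hXe : Real.exp (A + t - Real.log 2) ≤ X := by
      rw [Real.exp_sub, Real.exp_add, hAe, Real.exp_log (by norm_num : (0:ℝ) < 2),
        div_le_iff₀ (by norm_num)]
      nlinarith
    have hLe : Real.exp (A - κ * (γ * t) - Real.log 32) ≤ |L| := by
      rw [Real.exp_sub, Real.exp_sub, hAe, Real.exp_log (by norm_num : (0:ℝ) < 32),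
        div_le_iff₀ (by norm_num), div_le_iff₀ (Real.exp_pos _)]
      linarith
    apply P10.basic (by linarith) hXe hLe
    -- final
    have h2 : (1 - ρ * α) * t - ρ * Real.log 4 ≤ (ρ - 1) * A := by nlinarith
    have h3 : (ρ - 1) * (δ * t) ≤ (ρ - 1) * (s * (A + t - Real.log 2) +
        (A - κ * (γ * t) - Real.log 32)) := by
      have h4 : (1 + s) * ((1 - ρ * α) * t - ρ * Real.log 4) ≤ (1 + s) * ((ρ - 1) * A) :=
        mul_le_mul_of_nonneg_left h2 (by linarith)
      have h5 : 2 * ((ρ - 1) * δ) * t = E * t := by rw [hδE]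
      rw [hE] at h5
      rw [hC] at hδt
      nlinarith
    exact le_of_mul_le_mul_left h3 hρ1
  · exfalso
    rw [abs_mul, abs_of_pos hw1pos] at hdom
    nlinarith

end Pool.Agent.Helper73.TH
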